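import Pool.Agent.R612.CO.Fml

/-!
Tame relations between tuples of integers have no arbitrarily large shattered sets.
-/

set_option autoImplicit false

namespace Pool.Agent.N643.NZ

open SignType Pool.Agent.R612.CO

/-- threshold relations -/
def Thr {X Y : Type} (R : X → Y → Prop) : Prop :=
  ∃ (f : X → ℝ) (h : Y → ℝ), (∀ x y, R x y ↔ 0 < f x + h y) ∨ (∀ x y, R x y ↔ 0 ≤ f x + h y)

/-- the relations do not distinguish the two pairs -/
def Det {X Y : Type} (ℛ : Set (X → Y → Prop)) (x : X) (y : Y) (x' : X) (y' : Y) : Prop :=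
  ∀ R ∈ ℛ, (R x y ↔ R x' y')

theorem Det.mono {X Y : Type} {ℛ ℛ' : Set (X → Y → Prop)} (h : ℛ ⊆ ℛ') {x : X} {y : Y} {x' : X}
    {y' : Y} (hd : Det ℛ' x y x' y') : Det ℛ x y x' y' := fun R hR => hd R (h hR)

theorem Thr.comp {X Y X' Y' : Type} {R : X → Y → Prop} (hR : Thr R) (p : X' → X) (q : Y' → Y) :
    Thr fun x y => R (p x) (q y) := by
  obtain ⟨f, h, hR⟩ := hR
  refine ⟨fun x => f (p x), fun y => h (q y), ?_⟩
  rcases hR with hR | hR
  · exact Or.inl fun x y => hR _ _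
  · exact Or.inr fun x y => hR _ _

theorem Thr.chain {X Y : Type} {R : X → Y → Prop} (hR : Thr R) (b b' : Y) :
    (∀ x, R x b → R x b') ∨ (∀ x, R x b' → R x b) := by
  obtain ⟨f, h, hR⟩ := hR
  rcases le_total (h b) (h b') with hb | hb
  · left
    intro x hx
    rcases hR with hR | hR
    · rw [hR] at hx ⊢; linarith
    · rw [hR] at hx ⊢; linarith
  · right
    intro x hx
    rcases hR with hR | hR
    · rw [hR] at hx ⊢; linarith
    · rw [hR] at hx ⊢; linarith

theorem exists_big (m : ℕ) : ∃ n : ℕ, (n + 1) ^ m < 2 ^ n := by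
  have h := tendsto_pow_const_div_const_pow_of_one_lt m (r := (2 : ℝ)) (by norm_num)
  have h2 : ∀ᶠ n : ℕ in Filter.atTop, (n : ℝ) ^ m / 2 ^ n < 1 / 2 :=
    h.eventually_lt_const (by norm_num)
  obtain ⟨n, hn⟩ := (h2.and (Filter.eventually_ge_atTop 1)).exists
  obtain ⟨hn1, hn2⟩ := hn
  obtain ⟨k, rfl⟩ : ∃ k, n = k + 1 := ⟨n - 1, by omega⟩
  refine ⟨k, ?_⟩
  rw [div_lt_iff₀ (by positivity)] at hn1
  have : (1 : ℝ) / 2 * 2 ^ (k + 1) = 2 ^ k := by rw [pow_succ]; ring
  rw [this] at hn1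
  exact_mod_cast hn1

/-- a relation which is determined by finitely many threshold relations does not shatter large
sets -/
theorem not_shatter {X Y : Type} {ℛ : Set (X → Y → Prop)} (hfin : ℛ.Finite)
    (hthr : ∀ R ∈ ℛ, Thr R) {P : X → Y → Prop}
    (hP : ∀ x y x' y', Det ℛ x y x' y' → P x y → P x' y') :
    ∃ n : ℕ, ∀ (a : Fin n → X) (b : Finset (Fin n) → Y),
      ¬ ∀ i S, (P (a i) (b S) ↔ i ∈ S) := by
  classical
  have : Fintype ℛ := hfin.fintype
  obtain ⟨n, hn⟩ := exists_big (Fintype.card ℛ)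
  refine ⟨n, fun a b hab => ?_⟩
  let tr : Finset (Fin n) → ℛ → Finset (Fin n) := fun S R =>
    Finset.univ.filter fun i => R.1 (a i) (b S)
  let F : Finset (Fin n) → ℛ → Fin (n + 1) := fun S R =>
    ⟨(tr S R).card, Nat.lt_succ_of_le ((Finset.card_le_univ _).trans (by simp))⟩
  have hF : Function.Injective F := by
    intro S S' h
    have htr : ∀ R : ℛ, tr S R = tr S' R := by
      intro R
      have hc : (tr S R).card = (tr S' R).card := by
        have := congrFun h R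
        exact Fin.mk.inj_iff.1 this
      rcases (hthr R.1 R.2).chain (b S) (b S') with h1 | h1
      · refine Finset.eq_of_subset_of_card_le (fun i hi => ?_) hc.ge
        simp only [tr, Finset.mem_filter, Finset.mem_univ, true_and] at hi ⊢
        exact h1 _ hi
      · symm
        refine Finset.eq_of_subset_of_card_le (fun i hi => ?_) hc.le
        simp only [tr, Finset.mem_filter, Finset.mem_univ, true_and] at hi ⊢
        exact h1 _ hi
    have hdet : ∀ i, Det ℛ (a i) (b S) (a i) (b S') := by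
      intro i R hR
      have := htr ⟨R, hR⟩
      have h2 : i ∈ tr S ⟨R, hR⟩ ↔ i ∈ tr S' ⟨R, hR⟩ := by rw [this]
      simpa [tr] using h2
    have hdet' : ∀ i, Det ℛ (a i) (b S') (a i) (b S) := fun i R hR => (hdet i R hR).symm
    ext i
    rw [← hab i S, ← hab i S']
    exact ⟨hP _ _ _ _ (hdet i), hP _ _ _ _ (hdet' i)⟩
  have hcard := Fintype.card_le_of_injective F hF
  rw [Fintype.card_finset, Fintype.card_fin, Fintype.card_fun, Fintype.card_fin] at hcard
  omega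

section

variable {ι κ : Type} [Fintype ι] [Fintype κ] {θ : ℝ}

theorem fract_add_cases (a b : ℝ) :
    Int.fract (a + b) = Int.fract a + Int.fract b -
      (if 0 ≤ (Int.fract a - 1) + Int.fract b then 1 else 0) := by
  have e : a + b = (Int.fract a + Int.fract b) + ((⌊a⌋ + ⌊b⌋ : ℤ) : ℝ) := by
    rw [Int.fract, Int.fract]
    push_cast
    ring
  have h1 := Int.fract_nonneg a
  have h2 := Int.fract_nonneg b
  have h3 := Int.fract_lt_one a
  have h4 := Int.fract_lt_one b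
  rw [e, Int.fract_add_intCast]
  split_ifs with h
  · have e2 : Int.fract a + Int.fract b = (Int.fract a + Int.fract b - 1) + ((1 : ℤ) : ℝ) := by
      push_cast; ring
    rw [e2, Int.fract_add_intCast, Int.fract_eq_self.2 ⟨by linarith, by linarith⟩]
    push_cast
    ring
  · rw [Int.fract_eq_self.2 ⟨by linarith, by linarith⟩]
    ring

/-- the functions in `GG` are sums of functions of the two parts of the variables, up to a correction
with finitely many values which is determined by threshold relations -/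
theorem gg_dec {g : (ι ⊕ κ → ℚ) → ℝ} (hg : g ∈ GG θ (ι ⊕ κ)) :
    ∃ (U : (ι → ℚ) → ℝ) (V : (κ → ℚ) → ℝ) (T : Set ℝ) (τ : (ι → ℚ) → (κ → ℚ) → ℝ)
      (ℛ : Set ((ι → ℚ) → (κ → ℚ) → Prop)), T.Finite ∧ ℛ.Finite ∧ (∀ R ∈ ℛ, Thr R) ∧
      (∀ x y, τ x y ∈ T) ∧ (∀ x y x' y', Det ℛ x y x' y' → τ x y = τ x' y') ∧
      ∀ x y, g (Sum.elim x y) = U x + V y - τ x y := by
  classical
  induction hg using Submodule.span_induction with
  | mem g hg =>
    rcases hg with rfl | ⟨q, ⟨c, c0, hq⟩, rfl⟩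
    · refine ⟨fun _ => 1, fun _ => 0, {0}, fun _ _ => 0, ∅, Set.finite_singleton _,
        Set.finite_empty, by simp, by simp, by simp, by simp⟩
    · set U : (ι → ℚ) → ℝ := fun x =>
        Int.fract (((∑ i, c (Sum.inl i) * x i + c0 : ℚ) : ℝ) * θ) with hU
      set V : (κ → ℚ) → ℝ := fun y =>
        Int.fract (((∑ k, c (Sum.inr k) * y k : ℚ) : ℝ) * θ) with hV
      refine ⟨U, V, {0, 1}, fun x y => if 0 ≤ (U x - 1) + V y then 1 else 0,
        {fun x y => 0 ≤ (U x - 1) + V y}, Set.toFinite _, Set.finite_singleton _, ?_, ?_, ?_, ?_⟩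
      · rintro R rfl
        exact ⟨fun x => U x - 1, V, Or.inr fun x y => Iff.rfl⟩
      · intro x y
        by_cases h : 0 ≤ (U x - 1) + V y
        · simp [h]
        · simp [h]
      · intro x y x' y' h
        have h7 : 0 ≤ (U x - 1) + V y ↔ 0 ≤ (U x' - 1) + V y' := h _ rfl
        simp only [h7]
      · intro x y
        have e : ((q (Sum.elim x y) : ℚ) : ℝ) * θ =
            (((∑ i, c (Sum.inl i) * x i + c0 : ℚ) : ℝ) * θ) +
            (((∑ k, c (Sum.inr k) * y k : ℚ) : ℝ) * θ) := by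
          rw [hq, Fintype.sum_sum_type]
          simp only [Sum.elim_inl, Sum.elim_inr]
          push_cast
          ring
        simp only [e]
        rw [fract_add_cases]
  | zero =>
    exact ⟨fun _ => 0, fun _ => 0, {0}, fun _ _ => 0, ∅, Set.finite_singleton _,
        Set.finite_empty, by simp, by simp, by simp, by simp⟩
  | add g g' _ _ h h' =>
    obtain ⟨U, V, T, τ, ℛ, h1, h2, h3, h4, h5, h6⟩ := h
    obtain ⟨U', V', T', τ', ℛ', h1', h2', h3', h4', h5', h6'⟩ := h'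
    refine ⟨fun x => U x + U' x, fun y => V y + V' y, Set.image2 (· + ·) T T',
      fun x y => τ x y + τ' x y, ℛ ∪ ℛ', h1.image2 _ h1', h2.union h2', ?_, ?_, ?_, ?_⟩
    · rintro R (hR | hR)
      · exact h3 R hR
      · exact h3' R hR
    · exact fun x y => Set.mem_image2_of_mem (h4 x y) (h4' x y)
    · intro x y x' y' h
      show τ x y + τ' x y = τ x' y' + τ' x' y'
      rw [h5 x y x' y' (h.mono Set.subset_union_left),
        h5' x y x' y' (h.mono Set.subset_union_right)]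
    · intro x y
      rw [Pi.add_apply, h6, h6']
      ring
  | smul a g _ h =>
    obtain ⟨U, V, T, τ, ℛ, h1, h2, h3, h4, h5, h6⟩ := h
    refine ⟨fun x => a * U x, fun y => a * V y, (fun t => (a : ℝ) * t) '' T,
      fun x y => a * τ x y, ℛ, h1.image _, h2, h3, ?_, ?_, ?_⟩
    · exact fun x y => Set.mem_image_of_mem _ (h4 x y)
    · intro x y x' y' h
      simp only [h5 x y x' y' h]
    · intro x y
      rw [Pi.smul_apply, h6, Rat.smul_def]
      ring

theorem sign_dec {g : (ι ⊕ κ → ℚ) → ℝ} (hg : g ∈ GG θ (ι ⊕ κ)) :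
    ∃ ℛ : Set ((ι → ℚ) → (κ → ℚ) → Prop), ℛ.Finite ∧ (∀ R ∈ ℛ, Thr R) ∧
      ∀ x y x' y', Det ℛ x y x' y' → sign (g (Sum.elim x y)) = sign (g (Sum.elim x' y')) := by
  obtain ⟨U, V, T, τ, ℛ, h1, h2, h3, h4, h5, h6⟩ := gg_dec hg
  refine ⟨ℛ ∪ ((fun t : ℝ => fun x y => 0 < (U x - t) + V y) '' T ∪
    (fun t : ℝ => fun x y => 0 ≤ (U x - t) + V y) '' T),
    h2.union ((h1.image _).union (h1.image _)), ?_, ?_⟩
  · rintro R (hR | ⟨t, ht, rfl⟩ | ⟨t, ht, rfl⟩)
    · exact h3 R hR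
    · exact ⟨fun x => U x - t, V, Or.inl fun x y => Iff.rfl⟩
    · exact ⟨fun x => U x - t, V, Or.inr fun x y => Iff.rfl⟩
  · intro x y x' y' h
    have ht := h5 x y x' y' (h.mono Set.subset_union_left)
    have hp := h _ (Or.inr (Or.inl ⟨τ x y, h4 x y, rfl⟩))
    have hn := h _ (Or.inr (Or.inr ⟨τ x y, h4 x y, rfl⟩))
    simp only at hp hn
    rw [h6, h6, ← ht]
    have e : ∀ u v t : ℝ, u + v - t = (u - t) + v := fun u v t => by ring
    rw [e, e]
    set A := (U x - τ x y) + V y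
    set B := (U x' - τ x y) + V y'
    rcases lt_trichotomy 0 A with hA | hA | hA
    · rw [sign_pos hA, sign_pos (hp.1 hA)]
    · have h7 : 0 ≤ B := hn.1 hA.le
      have h8 : ¬ 0 < B := fun h => absurd (hp.2 h) (by rw [← hA]; exact lt_irrefl _)
      have h9 : B = 0 := le_antisymm (not_lt.1 h8) h7
      rw [← hA, h9]
    · have h8 : B < 0 := not_le.1 fun h => absurd (hn.2 h) (not_le.2 hA)
      rw [sign_neg hA, sign_neg h8]

end

/-- tame relations are determined by finitely many threshold relations -/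
theorem tame_dec {J : Type} [Finite J] {ι κ : Type} [Fintype ι] [Fintype κ] {θ : J → ℝ}
    {S : Set (ι ⊕ κ → ℤ)} (hS : Tame θ S) :
    ∃ ℛ : Set ((ι → ℤ) → (κ → ℤ) → Prop), ℛ.Finite ∧ (∀ R ∈ ℛ, Thr R) ∧
      ∀ x y x' y', Det ℛ x y x' y' → Sum.elim x y ∈ S → Sum.elim x' y' ∈ S := by
  classical
  obtain ⟨N, hN, E, hE1, hE2, hE3⟩ := hS
  have hsd := fun (j : J) (g : (ι ⊕ κ → ℚ) → ℝ) (hg : g ∈ E j) => sign_dec (hE2 j g hg)
  choose! ℛ hℛ1 hℛ2 hℛ3 using hsd
  let pull : ((ι → ℚ) → (κ → ℚ) → Prop) → ((ι → ℤ) → (κ → ℤ) → Prop) := fun R x y =>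
    R (fun i => (x i : ℚ)) (fun k => (y k : ℚ))
  let A : Set ((ι → ℤ) → (κ → ℤ) → Prop) := ⋃ j, ⋃ g ∈ E j, pull '' ℛ j g
  let B : Set ((ι → ℤ) → (κ → ℤ) → Prop) :=
    Set.image2 (fun (i : ι) (r : ℤ) => fun x _ => x i % (N : ℤ) = r) Set.univ
      (Set.Icc (0 : ℤ) N)
  let C : Set ((ι → ℤ) → (κ → ℤ) → Prop) :=
    Set.image2 (fun (k : κ) (r : ℤ) => fun _ y => y k % (N : ℤ) = r) Set.univ
      (Set.Icc (0 : ℤ) N)
  have hNpos : (0 : ℤ) < N := by exact_mod_cast hN
  refine ⟨A ∪ (B ∪ C), ?_, ?_, ?_⟩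
  · refine Set.Finite.union ?_ (Set.Finite.union ?_ ?_)
    · exact Set.finite_iUnion fun j => (hE1 j).biUnion fun g hg => (hℛ1 j g hg).image _
    · exact Set.finite_univ.image2 _ (Set.finite_Icc _ _)
    · exact Set.finite_univ.image2 _ (Set.finite_Icc _ _)
  · rintro R (hR | ⟨i, _, r, _, rfl⟩ | ⟨k, _, r, _, rfl⟩)
    · obtain ⟨j, hR⟩ := Set.mem_iUnion.1 hR
      obtain ⟨g, hg, hR⟩ := Set.mem_iUnion₂.1 hR
      obtain ⟨R', hR', rfl⟩ := hR
      exact (hℛ2 j g hg R' hR').comp _ _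
    · refine ⟨fun x => if x i % (N : ℤ) = r then 1 else -1, fun _ => 0, Or.inl fun x y => ?_⟩
      by_cases h : x i % (N : ℤ) = r
      · simp [h]
      · simp [h]
    · refine ⟨fun _ => 0, fun y => if y k % (N : ℤ) = r then 1 else -1, Or.inl fun x y => ?_⟩
      by_cases h : y k % (N : ℤ) = r
      · simp [h]
      · simp [h]
  · intro x y x' y' h hx
    have hmod : ∀ z : ℤ, 0 ≤ z % (N : ℤ) ∧ z % (N : ℤ) ≤ N := fun z =>
      ⟨Int.emod_nonneg _ hNpos.ne', (Int.emod_lt_of_pos _ hNpos).le⟩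
    refine hE3 _ _ ⟨?_, ?_⟩ hx
    · rintro (i | k)
      · have h1 := h _ (Or.inr (Or.inl ⟨i, Set.mem_univ _, x i % (N : ℤ), hmod _, rfl⟩))
        have h2 : x' i % (N : ℤ) = x i % (N : ℤ) := h1.1 rfl
        show (N : ℤ) ∣ x i - x' i
        exact Int.modEq_iff_dvd.1 h2
      · have h1 := h _ (Or.inr (Or.inr ⟨k, Set.mem_univ _, y k % (N : ℤ), hmod _, rfl⟩))
        have h2 : y' k % (N : ℤ) = y k % (N : ℤ) := h1.1 rfl
        show (N : ℤ) ∣ y k - y' k
        exact Int.modEq_iff_dvd.1 h2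
    · intro j g hg
      have e : ∀ (x : ι → ℤ) (y : κ → ℤ), (fun i => ((Sum.elim x y i : ℤ) : ℚ)) =
          Sum.elim (fun i => (x i : ℚ)) (fun k => (y k : ℚ)) := by
        intro x y
        funext s
        rcases s with s | s <;> rfl
      rw [e, e]
      refine hℛ3 j g hg _ _ _ _ fun R hR => ?_
      exact h (pull R) (Or.inl (Set.mem_iUnion.2 ⟨j, Set.mem_iUnion₂.2
        ⟨g, hg, Set.mem_image_of_mem _ hR⟩⟩))

/-- tame relations do not shatter large sets -/
theorem tame_nip {J : Type} [Finite J] {ι κ : Type} [Fintype ι] [Fintype κ] {θ : J → ℝ}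
    {S : Set (ι ⊕ κ → ℤ)} (hS : Tame θ S) :
    ∃ n : ℕ, ∀ (a : Fin n → ι → ℤ) (b : Finset (Fin n) → κ → ℤ),
      ¬ ∀ i s, (Sum.elim (a i) (b s) ∈ S ↔ i ∈ s) := by
  obtain ⟨ℛ, h1, h2, h3⟩ := tame_dec hS
  exact not_shatter h1 h2 (P := fun x y => Sum.elim x y ∈ S) h3

end Pool.Agent.N643.NZ
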