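import Pool.Agent.N643.NZ.Nip

/-!
The independence property in a model of the complete theory of a structure gives shattered sets of all
finite sizes in the structure.
-/

set_option autoImplicit false

universe u

namespace Pool.Agent.N643.NZ

open FirstOrder FirstOrder.Language

theorem transfer {L : FirstOrder.Language.{0, 0}} (M : Type) [L.Structure M] (N : Type u)
    [L.Structure N] [N ⊨ L.completeTheory M] {m k : ℕ} (φ : L.Formula (Fin m ⊕ Fin k))
    (a : ℕ → Fin m → N) (b : Set ℕ → Fin k → N)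
    (h : ∀ i S, φ.Realize (Sum.elim (a i) (b S)) ↔ i ∈ S) (n : ℕ) :
    ∃ (a : Fin n → Fin m → M) (b : Finset (Fin n) → Fin k → M),
      ∀ i S, φ.Realize (Sum.elim (a i) (b S)) ↔ i ∈ S := by
  classical
  let V := (Fin n × Fin m) ⊕ (Finset (Fin n) × Fin k)
  let ρ : Fin n → Finset (Fin n) → Fin m ⊕ Fin k → V := fun i S =>
    Sum.elim (fun j => Sum.inl (i, j)) (fun l => Sum.inr (S, l))
  let χ : L.Formula V := Formula.iInf fun p : Fin n × Finset (Fin n) =>
    if p.1 ∈ p.2 then φ.relabel (ρ p.1 p.2) else (φ.relabel (ρ p.1 p.2)).not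
  have hχ : ∀ (K : Type u) [L.Structure K] (v : V → K), χ.Realize v ↔
      ∀ i S, φ.Realize (v ∘ ρ i S) ↔ i ∈ S := by
    intro K _ v
    simp only [χ, Formula.realize_iInf, Prod.forall]
    refine forall_congr' fun i => forall_congr' fun S => ?_
    by_cases hi : i ∈ S
    · simp only [hi, if_true, Formula.realize_relabel, iff_true]
    · simp only [hi, if_false, Formula.realize_not, Formula.realize_relabel, iff_false]
  have hχ' : ∀ (v : V → M), χ.Realize v ↔
      ∀ i S, φ.Realize (v ∘ ρ i S) ↔ i ∈ S := by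
    intro v
    simp only [χ, Formula.realize_iInf, Prod.forall]
    refine forall_congr' fun i => forall_congr' fun S => ?_
    by_cases hi : i ∈ S
    · simp only [hi, if_true, Formula.realize_relabel, iff_true]
    · simp only [hi, if_false, Formula.realize_not, Formula.realize_relabel, iff_false]
  let σ : L.Sentence := (χ.relabel (Sum.inr : V → Empty ⊕ V)).iExs V
  have hσ : ∀ (K : Type u) [L.Structure K], K ⊨ σ ↔ ∃ v : V → K, χ.Realize v := by
    intro K _
    show Formula.Realize ((χ.relabel (Sum.inr : V → Empty ⊕ V)).iExs V) (default : Empty → K) ↔ _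
    rw [Formula.realize_iExs]
    refine exists_congr fun v => ?_
    rw [Formula.realize_relabel, Sum.elim_comp_inr]
  have hσ' : M ⊨ σ ↔ ∃ v : V → M, χ.Realize v := by
    show Formula.Realize ((χ.relabel (Sum.inr : V → Empty ⊕ V)).iExs V) (default : Empty → M) ↔ _
    rw [Formula.realize_iExs]
    refine exists_congr fun v => ?_
    rw [Formula.realize_relabel, Sum.elim_comp_inr]
  have h1 : N ⊨ σ := by
    rw [hσ]
    refine ⟨Sum.elim (fun p => a p.1 p.2) (fun p => b {j : ℕ | ∃ i ∈ p.1, (i : ℕ) = j} p.2), ?_⟩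
    rw [hχ]
    intro i S
    have e : (Sum.elim (fun p : Fin n × Fin m => a p.1 p.2)
        (fun p : Finset (Fin n) × Fin k => b {j : ℕ | ∃ i ∈ p.1, (i : ℕ) = j} p.2)) ∘ ρ i S =
        Sum.elim (a i) (b {j : ℕ | ∃ i ∈ S, (i : ℕ) = j}) := by
      funext s
      rcases s with s | s <;> rfl
    rw [e, h]
    constructor
    · rintro ⟨j, hj, hji⟩
      rwa [← Fin.ext hji]
    · intro hi
      exact ⟨i, hi, rfl⟩
  have h2 : M ⊨ σ := (realize_iff_of_model_completeTheory M N _).1 h1
  obtain ⟨v, hv⟩ := hσ'.1 h2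
  rw [hχ'] at hv
  refine ⟨fun i j => v (Sum.inl (i, j)), fun S l => v (Sum.inr (S, l)), fun i S => ?_⟩
  rw [← hv i S]
  have e : v ∘ ρ i S = Sum.elim (fun j => v (Sum.inl (i, j))) (fun l => v (Sum.inr (S, l))) := by
    funext s
    rcases s with s | s <;> rfl
  rw [e]

end Pool.Agent.N643.NZ
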